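import Pool.Agent.Run7.h987.RT.Iface

/-!
# Embedding over one cube, piece CNT2: counting at the export level
-/

set_option autoImplicit false

open MeasureTheory Set
open scoped Topology

noncomputable section

namespace Run7.h646.RT

open Pool.Agent.Run7.h987.BL Pool.Agent.Run7.h987.RT

variable {k : ℕ}

theorem norm_le_mul (v : E k) (c : ℝ) (h : ∀ i, |v i| ≤ c) : ‖v‖ ≤ c * k := by
  rcases Nat.eq_zero_or_pos k with hk | hk
  · subst hk
    have : v = 0 := Subsingleton.elim _ _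
    simp [this]
  have hc : 0 ≤ c := (abs_nonneg _).trans (h ⟨0, hk⟩)
  rw [EuclideanSpace.norm_eq]
  have hk1 : (1 : ℝ) ≤ k := by exact_mod_cast hk
  have h1 : ∑ i, ‖v i‖ ^ 2 ≤ (c * k) ^ 2 := by
    calc ∑ i, ‖v i‖ ^ 2 ≤ ∑ _i : Fin k, c ^ 2 := by
          refine Finset.sum_le_sum fun i _ => ?_
          rw [Real.norm_eq_abs]
          exact pow_le_pow_left₀ (abs_nonneg _) (h i) 2
      _ = k * c ^ 2 := by simp
      _ ≤ (c * k) ^ 2 := by nlinarith [sq_nonneg c, mul_nonneg (sq_nonneg c) (by linarith : (0 : ℝ) ≤ k)]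
  calc √(∑ i, ‖v i‖ ^ 2) ≤ √((c * k) ^ 2) := Real.sqrt_le_sqrt h1
    _ = c * k := Real.sqrt_sq (by positivity)

theorem abs_le_norm (v : E k) (i : Fin k) : |v i| ≤ ‖v‖ := by
  rw [← Real.norm_eq_abs]
  exact PiLp.norm_apply_le v i

/-- the integer vectors in a ball are finitely many -/
theorem finite_ball (κ L : ℝ) (hκ : 0 < κ) : {z : Zk k | ‖κ • (vec z : E k)‖ ≤ L}.Finite := by
  refine (Set.finite_Icc (fun _ : Fin k => -⌈L / κ⌉) (fun _ => ⌈L / κ⌉)).subset ?_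
  intro z hz
  have h1 : ∀ i, |(z i : ℝ)| ≤ L / κ := by
    intro i
    have h2 := (abs_le_norm (κ • (vec z : E k)) i).trans hz
    rw [PiLp.smul_apply, vec_apply, smul_eq_mul, abs_mul, abs_of_pos hκ] at h2
    rw [le_div_iff₀ hκ, mul_comm]
    exact h2
  refine ⟨fun i => ?_, fun i => ?_⟩
  · have h3 := (abs_le.1 (h1 i)).1
    have h4 : -(⌈L / κ⌉ : ℝ) ≤ z i := by linarith [Int.le_ceil (L / κ)]
    exact_mod_cast h4
  · have h3 := (abs_le.1 (h1 i)).2
    have h4 : (z i : ℝ) ≤ ⌈L / κ⌉ := by linarith [Int.le_ceil (L / κ)]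
    exact_mod_cast h4

/-- the lattice indices which correspond to the box `u` -/
def zbox (κ s' : ℝ) (Q : ℕ) (m u : Zk k) : Finset (Zk k) :=
  Fintype.piFinset fun i => Finset.Ico ⌈s' * (Q * u i - m i) / κ⌉ ⌈s' * (Q * u i - m i + Q) / κ⌉

theorem mem_zbox {κ s' : ℝ} (hκ : 0 < κ) {Q : ℕ} {m u z : Zk k} (hz : z ∈ zbox κ s' Q m u)
    (i : Fin k) : s' * (Q * u i - m i) ≤ κ * z i ∧ κ * z i < s' * (Q * u i - m i + Q) := by
  have h := Finset.mem_Ico.1 (Fintype.mem_piFinset.1 hz i)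
  rw [Int.ceil_le, Int.lt_ceil, div_le_iff₀ hκ, lt_div_iff₀ hκ] at h
  exact ⟨by rw [mul_comm κ]; exact h.1, by rw [mul_comm κ]; exact h.2⟩

theorem card_zbox {κ s' : ℝ} (hκ : 0 < κ) {Q : ℕ} (hQ : 4 * κ ≤ Q) (hs : 1 / 2 ≤ s')
    (m u : Zk k) : ((Q : ℝ) / (4 * κ)) ^ k ≤ ((zbox κ s' Q m u).card : ℝ) := by
  have hy : 1 ≤ (Q : ℝ) / (4 * κ) := by rw [le_div_iff₀ (by positivity)]; linarith
  rw [zbox, Fintype.card_piFinset]
  push_cast
  rw [← Fin.prod_const]
  refine Finset.prod_le_prod (fun i _ => by positivity) fun i _ => ?_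
  rw [Int.card_Ico]
  set α : ℝ := s' * (Q * u i - m i) / κ with hα
  have h2 : s' * (Q * u i - m i + Q) / κ = α + s' * Q / κ := by rw [hα]; ring
  rw [h2]
  have h3 : 2 * ((Q : ℝ) / (4 * κ)) ≤ s' * Q / κ := by
    rw [show 2 * ((Q : ℝ) / (4 * κ)) = (1 / 2 * Q) / κ by field_simp; ring]
    gcongr
  have h4 : (⌈α⌉ : ℝ) < α + 1 := Int.ceil_lt_add_one _
  have h5 : α + s' * Q / κ ≤ ⌈α + s' * Q / κ⌉ := Int.le_ceil _
  have h6 : ((Q : ℝ) / (4 * κ)) ≤ ((⌈α + s' * Q / κ⌉ - ⌈α⌉ : ℤ) : ℝ) := by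
    push_cast
    linarith
  have h7 : ((⌈α + s' * Q / κ⌉ - ⌈α⌉ : ℤ) : ℝ) ≤ (((⌈α + s' * Q / κ⌉ - ⌈α⌉).toNat : ℤ) : ℝ) := by
    exact_mod_cast Int.self_le_toNat _
  calc (Q : ℝ) / (4 * κ) ≤ _ := h6
    _ ≤ _ := h7
    _ = _ := by norm_cast

theorem zbox_disj {κ s' : ℝ} (hκ : 0 < κ) (hs : 0 < s') {Q : ℕ} (hQ : 0 < Q) {m u u' z : Zk k}
    (h : z ∈ zbox κ s' Q m u) (h' : z ∈ zbox κ s' Q m u') : u = u' := by
  funext i
  obtain ⟨h1, h2⟩ := mem_zbox hκ h i
  obtain ⟨h3, h4⟩ := mem_zbox hκ h' i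
  have hQ' : (0 : ℝ) < Q := by exact_mod_cast hQ
  have key : ∀ x y : ℤ, s' * (Q * (x : ℝ) - m i) < s' * (Q * (y : ℝ) - m i + Q) → x ≤ y := by
    intro x y hxy
    have h5 := lt_of_mul_lt_mul_left hxy hs.le
    have h6 : (Q : ℝ) * x < Q * (y + 1) := by linarith
    have h7 := lt_of_mul_lt_mul_left h6 hQ'.le
    have h8 : x < y + 1 := by exact_mod_cast h7
    omega
  exact le_antisymm (key _ _ (h1.trans_lt h4)) (key _ _ (h3.trans_lt h2))

theorem t_CNT2 (hSc : P_SCALE) (hW : P_WTB) : P_CNT2 := by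
  classical
  intro k κ θ Q D hk hκ hQ hθ
  refine ⟨8 * (θ + 2 + Q * k), by positivity, ?_⟩
  intro N L H Λ' Rb a bad hN hL hcfg hH hΛ hRb hbad m
  have hQ0 : 0 < Q := by
    rcases Nat.eq_zero_or_pos Q with h | h
    · subst h; simp only [Nat.cast_zero] at hQ; linarith
    · exact h
  have hQr : (0 : ℝ) < Q := by exact_mod_cast hQ0
  have hN0 : 0 < N := lt_of_lt_of_le (by positivity) hN
  set A : Set (Zk k) := {j : Zk k | m + j ∈ bad ∧ 0 < wgt a Rb (L + 2) H (-1) m (vec j)} with hA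
  set Z : Set (Zk k) := {z : Zk k | wgt a Rb Λ' (1 / 2 * H) θ m (κ • vec z) = 1} with hZ
  have hZfin : Z.Finite := by
    refine (finite_ball κ Λ' hκ).subset ?_
    intro z hz
    have h1 : 0 < wgt a Rb Λ' (1 / 2 * H) θ m (κ • vec z) := by rw [hz]; norm_num
    exact ((hW k a Rb Λ' (1 / 2 * H) θ m (κ • vec z)).2.1 h1).2.1
  have hAfin : A.Finite := by
    refine (finite_ball 1 (L + 2) one_pos).subset ?_
    intro j hj
    have := ((hW k a Rb (L + 2) H (-1) m (vec j)).2.1 hj.2).2.1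
    simpa using this
  rcases A.eq_empty_or_nonempty with hAe | ⟨j₀, hj₀⟩
  · rw [hAe]; simp
  have ham : 0 < a m :=
    lt_of_le_of_ne (hcfg.nonneg m) (Ne.symm ((hW k a Rb (L + 2) H (-1) m (vec j₀)).2.1 hj₀.2).1)
  set s' : ℝ := (ht (a m) + 1 / 2 * H) / (ht (a m) + H) with hs'
  have hsc : ∀ j ∈ A, 1 / 2 ≤ s' ∧ s' < 1 ∧ ‖(vec j : E k)‖ ≤ L + 2 ∧
      ∀ n ∈ nb Rb m, 0 < a n → ∀ v : E k,
        (1 - 1 / 2) * N / 4 - 1 - ‖v‖ ≤ marg a (1 / 2 * H) m n (vec m + s' • vec j + v) := by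
    intro j hj
    obtain ⟨-, h2, h3⟩ := (hW k a Rb (L + 2) H (-1) m (vec j)).2.1 hj.2
    obtain ⟨s'', e1, e2, e3, e4⟩ := hSc k N L H (1 / 2) Rb a hN0 hL hH (by norm_num) (by norm_num)
      hRb hcfg m (vec m + vec j) ham (by simpa using h2)
      (fun n hn hn0 => (h3 n hn hn0.ne').le)
    rw [← hs'] at e1
    subst e1
    refine ⟨e2, e3, h2, fun n hn hn0 v => ?_⟩
    have := e4 n hn hn0 v
    rwa [add_sub_cancel_left] at this
  obtain ⟨hs1, hs2, -, -⟩ := hsc j₀ hj₀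
  have hs0 : 0 < s' := by linarith
  -- the block of `j`
  let bl : Zk k → Zk k := fun j i => (m i + j i) / (Q : ℤ)
  have hbl : ∀ (j : Zk k) (i : Fin k), (Q : ℝ) * bl j i ≤ m i + j i ∧
      (m i + j i : ℝ) < Q * bl j i + Q := by
    intro j i
    have hQz : (0 : ℤ) < Q := by exact_mod_cast hQ0
    have h1 : (Q : ℤ) * bl j i ≤ m i + j i := Int.mul_ediv_self_le hQz.ne'
    have h2 : m i + j i < (Q : ℤ) * bl j i + Q := Int.lt_mul_ediv_self_add hQz
    exact ⟨by exact_mod_cast h1, by exact_mod_cast h2⟩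
  set Af : Finset (Zk k) := hAfin.toFinset with hAf
  set U : Finset (Zk k) := Af.image bl with hU
  have hZb : ∀ u ∈ U, zbox κ s' Q m u ⊆ hZfin.toFinset := by
    intro u hu z hz
    obtain ⟨j, hj, rfl⟩ := Finset.mem_image.1 hu
    rw [hAf, Set.Finite.mem_toFinset] at hj
    obtain ⟨-, -, h2, h3⟩ := hsc j hj
    rw [Set.Finite.mem_toFinset]
    set v : E k := κ • vec z - s' • vec j with hv
    have hvn : ‖v‖ ≤ Q * k := by
      refine norm_le_mul v Q fun i => ?_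
      obtain ⟨f1, f2⟩ := mem_zbox hκ hz i
      obtain ⟨g1, g2⟩ := hbl j i
      have hvi : v i = κ * z i - s' * j i := by
        simp [hv, PiLp.sub_apply, PiLp.smul_apply, vec_apply]
      rw [hvi, abs_le]
      have g3 : s' * (Q * bl j i - m i) ≤ s' * j i := by
        apply mul_le_mul_of_nonneg_left _ hs0.le
        linarith
      have g4 : s' * j i ≤ s' * (Q * bl j i - m i + Q) := by
        apply mul_le_mul_of_nonneg_left _ hs0.le
        linarith
      have g5 : s' * Q ≤ Q := by nlinarith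
      constructor <;> nlinarith
    have hvec : (vec m : E k) + κ • vec z = vec m + s' • vec j + v := by
      rw [hv]; abel
    refine (hW k a Rb Λ' (1 / 2 * H) θ m (κ • vec z)).2.2.1 ham.ne' ?_ ?_
    · have h4 : (κ • vec z : E k) = s' • vec j + v := by rw [hv]; abel
      rw [h4]
      calc ‖s' • (vec j : E k) + v‖ ≤ ‖s' • (vec j : E k)‖ + ‖v‖ := norm_add_le _ _
        _ ≤ ‖(vec j : E k)‖ + ‖v‖ := by
          gcongr
          rw [norm_smul, Real.norm_eq_abs, abs_of_pos hs0]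
          exact mul_le_of_le_one_left (norm_nonneg _) hs2.le
        _ ≤ L + 2 + Q * k := by gcongr
        _ ≤ Λ' := hΛ
    · intro n hn hn0
      have h5 := h3 n hn (lt_of_le_of_ne (hcfg.nonneg n) (Ne.symm hn0)) v
      rw [hvec]
      refine le_trans ?_ h5
      linarith
  -- the counting
  have hcnt : (D : ℝ) * Af.card ≤ U.card * ((Q : ℝ) / (4 * κ)) ^ k := by
    have h1 : Af.card = ∑ u ∈ U, (Af.filter fun j => bl j = u).card :=
      Finset.card_eq_sum_card_image bl Af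
    rw [h1, Nat.cast_sum, Finset.mul_sum, ← nsmul_eq_mul, ← Finset.sum_const]
    refine Finset.sum_le_sum fun u hu => ?_
    have h2 := hbad (fun i => Q * u i) ((Af.filter fun j => bl j = u).image fun j => m + j) ?_ ?_
    · rwa [Finset.card_image_of_injective _ (add_right_injective m)] at h2
    · intro q hq
      obtain ⟨j, hj, rfl⟩ := Finset.mem_image.1 hq
      obtain ⟨-, rfl⟩ := Finset.mem_filter.1 hj
      rw [ibox, Finset.mem_Icc]
      have hQz : (0 : ℤ) < Q := by exact_mod_cast hQ0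
      refine ⟨fun i => Int.mul_ediv_self_le hQz.ne', fun i => ?_⟩
      have h2 : m i + j i < (Q : ℤ) * bl j i + Q := Int.lt_mul_ediv_self_add hQz
      change m i + j i ≤ (Q : ℤ) * bl j i + Q - 1
      omega
    · intro q hq
      obtain ⟨j, hj, rfl⟩ := Finset.mem_image.1 hq
      obtain ⟨hj', -⟩ := Finset.mem_filter.1 hj
      rw [hAf, Set.Finite.mem_toFinset] at hj'
      exact hj'.1
  have hcnt2 : (U.card : ℝ) * ((Q : ℝ) / (4 * κ)) ^ k ≤ (hZfin.toFinset.card : ℝ) := by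
    have h1 : (U.biUnion fun u => zbox κ s' Q m u).card = ∑ u ∈ U, (zbox κ s' Q m u).card := by
      refine Finset.card_biUnion fun u _ u' _ huu => ?_
      change Disjoint (zbox κ s' Q m u) (zbox κ s' Q m u')
      rw [Finset.disjoint_left]
      intro z hz hz'
      exact huu (zbox_disj hκ hs0 hQ0 hz hz')
    have h2 : (U.biUnion fun u => zbox κ s' Q m u) ⊆ hZfin.toFinset :=
      Finset.biUnion_subset.2 hZb
    have h3 := Finset.card_le_card h2
    rw [h1] at h3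
    calc (U.card : ℝ) * ((Q : ℝ) / (4 * κ)) ^ k = ∑ u ∈ U, ((Q : ℝ) / (4 * κ)) ^ k := by
          rw [Finset.sum_const, nsmul_eq_mul]
      _ ≤ ∑ u ∈ U, ((zbox κ s' Q m u).card : ℝ) :=
          Finset.sum_le_sum fun u _ => card_zbox hκ hQ hs1 m u
      _ = ((∑ u ∈ U, (zbox κ s' Q m u).card : ℕ) : ℝ) := by push_cast; rfl
      _ ≤ _ := by exact_mod_cast h3
  rw [Set.ncard_eq_toFinset_card A hAfin, Set.ncard_eq_toFinset_card Z hZfin]
  have := hcnt.trans hcnt2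
  exact_mod_cast this

end Run7.h646.RT
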